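import Pool.Agent.Y191.Final2

/-!
MP_c6ff8d_ag, Q1: Lang's conjecture for general complete intersections of many diagonal
hypersurfaces, in particular of many diagonal quadrics.
-/

set_option autoImplicit false

open MvPolynomial Pool.Agent.Y191

namespace Pool.Agent.Results.MP_c6ff8d_ag.DiagonalIntersections

/-- Let `n ≥ 1`, `m ≥ 2`, `2 n m ≤ K (m - 1)` and `(n + K).choose n ≤ n + c`. Let `X` be the
intersection of `c` general diagonal hypersurfaces of degree `m` in `P^(n + c)`. Then `X` is a
smooth complete intersection of dimension `n`, there are no nonconstant holomorphic maps from the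
complex plane to `X`, and all varieties of positive dimension with a generically finite rational
map to `X`, in particular all subvarieties of `X` of positive dimension, are of general type. -/
theorem result {n c m K : ℕ} (hn : 1 ≤ n) (hm : 2 ≤ m) (hK : 2 * n * m ≤ K * (m - 1))
    (hc : (n + K).choose n ≤ n + c) :
    ∃ Ψ : MvPolynomial (Fin c × Fin (n + c + 1)) ℂ, Ψ ≠ 0 ∧
      ∀ A : Fin c → Fin (n + c + 1) → ℂ, eval (fun x => A x.1 x.2) Ψ ≠ 0 →
        SmoothCI (diagForm m A) ∧ NoEntireCurve (diagForm m A) ∧
          AllGeneralTypeOver (diagForm m A) :=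
  diag_main hn hm hK hc

end Pool.Agent.Results.MP_c6ff8d_ag.DiagonalIntersections
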