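import Mathlib
import Pool.Agent.Y221.FQ.Top

/-!
MP_c6ff8d_ag, Q1: Lang's conjecture on hyperbolicity and subvarieties of general type for the finite
images of systems of high powers, and of their covers.

Let `V = {F = 0}` in `ℙⁿ` be a projective variety given by sums of at most `s` powers of linear
forms, or by forms with at most `s` monomials and divisible exponents. We consider the images
`X = {Φ = 0}` of the finite covers `W = {Ψ = 0}` of subvarieties of `V` under finite morphisms with
fibres of at most `r` points, where the exponents are at least `4 n 10 ^ s (r + 1) ^ 7`. No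
assumption is made on the singularities and the branch loci.

The definitions are in `Pool/Agent/Y221/FQ/Defs.lean` (`Mor`, `Onto`, `FibresLe`, `Entire`,
`Essential`, `AllGeneral`), `Pool/Agent/W602/GT/SpGmDefs.lean` (`GmCurve`) and
`Pool/Agent/W602/GT/Cls.lean` (`HighPowers`).
-/

set_option autoImplicit false

namespace Pool.Agent.Results.MP_c6ff8d_ag.FiniteImages

open Pool.Agent.W602.GT Pool.Agent.Y221.FQ

/-- Let `V = {F = 0}`, `s`, `N`, `r` be as above.

(1) If `G : V → X = {Φ = 0}` is a surjective morphism with fibres of at most `r` points, then the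
following are equivalent: `X` contains no nonconstant entire curve; all closed subvarieties of
positive dimension of `X` are of general type; every holomorphic map from the punctured disc to `X`
extends to the disc; there is no nonconstant morphism from the multiplicative group to `X`; there is
no nonconstant morphism from the multiplicative group to `V`.

(2) If there is no nonconstant morphism from the multiplicative group to `V`, and `W = {Ψ = 0}` is
a projective variety with a morphism `B : W → V` and a surjective morphism `G : W → X = {Φ = 0}`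
with fibres of at most `r` points, then `X` contains no nonconstant entire curve, all holomorphic
maps from the punctured disc to `X` extend, and all closed subvarieties of positive dimension of
`X` are of general type. -/
theorem result {n M : ℕ} {ι μ : Type} {F : ι → MvPolynomial (Fin (n + 1)) ℂ}
    {Φ : μ → MvPolynomial (Fin (M + 1)) ℂ} {s N r : ℕ} (hF : HighPowers s N F) (hn : 1 ≤ n)
    (hN : n * (4 * 10 ^ s * (r + 1) ^ 7) ≤ N) (hΦ : ∀ e, IsForm (Φ e)) :
    (∀ G : Fin (M + 1) → MvPolynomial (Fin (n + 1)) ℂ, Mor F Φ G → Onto F Φ G → FibresLe F G r →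
      [∀ f, ¬ Entire Φ f, AllGeneral Φ, ∀ f, ¬ Essential Φ f, ∀ P, ¬ GmCurve Φ P,
        ∀ P, ¬ GmCurve F P].TFAE) ∧
    ((∀ P, ¬ GmCurve F P) → ∀ (m : ℕ) (κ : Type) (Ψ : κ → MvPolynomial (Fin (m + 1)) ℂ)
      (B : Fin (n + 1) → MvPolynomial (Fin (m + 1)) ℂ)
      (G : Fin (M + 1) → MvPolynomial (Fin (m + 1)) ℂ), (∀ e, IsForm (Ψ e)) → Mor Ψ F B →
      Mor Ψ Φ G → Onto Ψ Φ G → FibresLe Ψ G r →
      (∀ f, ¬ Entire Φ f) ∧ (∀ f, ¬ Essential Φ f) ∧ AllGeneral Φ) :=
  ⟨fun _ hG hon hfib => hyp_im hΦ hG hon hfib hF hn hN,
    fun hGm _ _ _ _ _ hΨ hB hG hon hfib => hyp_cover hΨ hB hG hon hfib hF hn hN hGm⟩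

end Pool.Agent.Results.MP_c6ff8d_ag.FiniteImages
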