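import Pool.Agent.Y741.MAna

/-!
MP_c6ff8d_ag, Q1: hyperbolicity and subvarieties of general type for all very general complete
intersections of dimension at least five.

Let `H_a`, for `a` in a finite set `A`, be forms of degrees `d_a > 0` in `n + 1` variables over the
complex numbers whose coefficients are, for all `a` together, algebraically independent over the
rational numbers (this holds outside of countably many proper closed subsets of the space of
coefficients). Let `X` be the closed subset `H_a = 0` (for all `a`) of projective space of dimension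
`n`, which is a smooth complete intersection of dimension `n - |A|`, connected for `|A| < n`.

(I) Suppose that `dim X ≥ 5`, or `3 n + 3 ≤ 2 ∑ d_a + |A|`, or `∑ (d_a + 1) ≤ 2 n - 2`. Then the
following are equivalent:
(1) every subvariety of `X` (closed, of positive dimension) is of general type;
(2) there is a constant `B` with `deg f ≤ B (2 g - 2)` for all nonconstant morphisms `f` from smooth
    projective curves to `X`, where `g` is the genus of the curve;
(3) `X` contains no line;
(4) `2 n - 1 ≤ ∑ (d_a + 1)`.
If `X` is Kobayashi hyperbolic, that is, if all entire curves in `X` are constant, then (1) to (4)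
hold.

(II) Suppose that `3 n + 3 ≤ 2 ∑ d_a + |A|`, and let `G` be a form. Then all subvarieties of `X` that
are not contained in `G = 0` are of general type if and only if `G` vanishes on all lines in `X`; this
holds if all nonconstant entire curves in `X` are contained in `G = 0`.

A morphism from a curve to `X` is given by a point `x` of `X` over the function field `L` of the
curve; `pht ℂ x` is its degree (the degree of the pullback of `O(1)`, which is `0` for constant
morphisms only), and `canDeg ℂ L = 2 g - 2`. A subvariety of `X` of dimension `w` is given by its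
generic point `y`, in homogeneous coordinates, over its function field `K` or a finite extension of
it; it is of general type if `GeneralType ℂ K w` (pluricanonical forms, regular at all prime divisors
over it, whose ratios contain `w` algebraically independent functions).
-/

set_option autoImplicit false

namespace Pool.Agent.Results.MP_c6ff8d_ag.GenericCompleteInters

open MvPolynomial FF Pool.Agent.W603.PV Pool.Agent.W603.LV Pool.Agent.W602.GT Pool.Agent.TH145.MG

/-- Forms of degrees `d a` whose coefficients are algebraically independent. -/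
def VeryGeneral {A : Type} {n : ℕ} (H : A → MvPolynomial (Fin (n + 1)) ℂ) (d : A → ℕ) : Prop :=
  (∀ a, (H a).IsHomogeneous (d a)) ∧
    AlgebraicIndependent ℚ fun p : (a : A) × {I : Fin (n + 1) →₀ ℕ // I.degree = d a} =>
      (H p.1).coeff p.2.1

/-- The point `x` of projective space is on `X`. -/
def OnX {K A : Type} [Field K] [Algebra ℂ K] {n : ℕ}
    (H : A → MvPolynomial (Fin (n + 1)) ℂ) (x : Fin (n + 1) → K) : Prop :=
  x ≠ 0 ∧ ∀ a, aeval x (H a) = 0

/-- A line, given by a vector space `W` of dimension two, that is contained in `X`. -/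
def Line {A : Type} {n : ℕ} (H : A → MvPolynomial (Fin (n + 1)) ℂ)
    (W : Submodule ℂ (Fin (n + 1) → ℂ)) : Prop :=
  Module.finrank ℂ W = 2 ∧ ∀ a, ∀ v ∈ W, eval v (H a) = 0

/-- The degrees of the nonconstant morphisms from curves to `X` are at most a constant times
`2 g - 2`. -/
def DegreeBound {A : Type} {n : ℕ} (H : A → MvPolynomial (Fin (n + 1)) ℂ) : Prop :=
  ∃ B : ℕ, ∀ (L : Type) [Field L] [Algebra ℂ L] [IsFF ℂ L] (x : Fin (n + 1) → L), OnX H x →
    pht ℂ x ≤ B * max (canDeg ℂ L) 0

/-- `K` is (a finite extension of) the function field, and `y` the generic point, of a closed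
subvariety of dimension `w` of `X`. -/
def Subvariety {A K : Type} [Field K] [Algebra ℂ K] {n : ℕ}
    (H : A → MvPolynomial (Fin (n + 1)) ℂ) (w : ℕ) (y : Fin (n + 1) → K) : Prop :=
  OnX H y ∧ Algebra.trdeg ℂ K = w ∧ Algebra.IsAlgebraic (coords ℂ y) K

/-- All closed subvarieties of positive dimension of `X` are of general type. -/
def AllGeneralType {A : Type} {n : ℕ} (H : A → MvPolynomial (Fin (n + 1)) ℂ) : Prop :=
  ∀ (K : Type) [Field K] [Algebra ℂ K] (w : ℕ) (y : Fin (n + 1) → K), 0 < w →
    Subvariety H w y → GeneralType ℂ K w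

/-- All closed subvarieties of positive dimension of `X` that are not contained in `G = 0` are of
general type. -/
def GeneralTypeOutside {A : Type} {n : ℕ} (H : A → MvPolynomial (Fin (n + 1)) ℂ)
    (G : MvPolynomial (Fin (n + 1)) ℂ) : Prop :=
  ∀ (K : Type) [Field K] [Algebra ℂ K] (w : ℕ) (y : Fin (n + 1) → K), 0 < w →
    Subvariety H w y → aeval y G ≠ 0 → GeneralType ℂ K w

/-- The holomorphic functions `f` are homogeneous coordinates of a nonconstant entire curve
in `X`. -/
def EntireCurve {A : Type} {n : ℕ} (H : A → MvPolynomial (Fin (n + 1)) ℂ)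
    (f : ℂ → Fin (n + 1) → ℂ) : Prop :=
  (∀ j, Differentiable ℂ fun z => f z j) ∧ (∀ z, OnX H (f z)) ∧
    ∃ z w i j, f z i * f w j ≠ f z j * f w i

theorem result {n : ℕ} (hn : 1 ≤ n) {A : Type} [Fintype A] [DecidableEq A] {d : A → ℕ}
    (hd0 : ∀ a, 0 < d a) (H : A → MvPolynomial (Fin (n + 1)) ℂ) (hH : VeryGeneral H d) :
    -- (I) subvarieties, curves and lines
    (Fintype.card A + 5 ≤ n ∨ 3 * n + 3 ≤ 2 * ∑ a, d a + Fintype.card A ∨
        ∑ a, (d a + 1) ≤ 2 * n - 2 →
      List.TFAE [AllGeneralType H, DegreeBound H, ∀ W, ¬ Line H W, 2 * n - 1 ≤ ∑ a, (d a + 1)] ∧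
      -- hyperbolic implies that every subvariety is of general type
      ((∀ f, ¬ EntireCurve H f) → AllGeneralType H)) ∧
    -- (II) the exceptional set
    (3 * n + 3 ≤ 2 * ∑ a, d a + Fintype.card A →
      ∀ (G : MvPolynomial (Fin (n + 1)) ℂ) (e : ℕ), G.IsHomogeneous e →
        (GeneralTypeOutside H G ↔ ∀ W, Line H W → ∀ v ∈ W, eval v G = 0) ∧
        ((∀ f, EntireCurve H f → ∀ z, eval (f z) G = 0) → GeneralTypeOutside H G)) := by
  obtain ⟨hG, hind⟩ := hH
  refine ⟨fun hdim => ?_, fun hd G e hGe => ?_⟩
  · have h1 : List.TFAE [AllGeneralType H, DegreeBound H, ∀ W, ¬ Line H W,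
        2 * n - 1 ≤ ∑ a, (d a + 1)] :=
      Pool.Agent.Y741.m_tfae2 (k0 := ℚ) hn hd0 hG hind (by tauto)
    have e1 : AllGeneralType H ↔ ∀ W, ¬ Line H W := h1.out 0 2
    refine ⟨h1, fun h => e1.2 fun W hW => ?_⟩
    have h2 := Pool.Agent.Y741.m_ent hG (isHomogeneous_one _ _)
      (fun f h3 h4 h5 => absurd ⟨h3, h4, h5⟩ (h f)) hW 0 W.zero_mem
    rw [map_one] at h2
    exact one_ne_zero h2
  · have h1 : (∀ W, Line H W → ∀ v ∈ W, eval v G = 0) ↔ GeneralTypeOutside H G :=
      Pool.Agent.Y741.m_forms (k0 := ℚ) hn hd0 hG hind hd hGe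
    exact ⟨h1.symm, fun h => h1.1 fun W hW =>
      Pool.Agent.Y741.m_ent hG hGe (fun f h3 h4 h5 => h f ⟨h3, h4, h5⟩) hW⟩

end Pool.Agent.Results.MP_c6ff8d_ag.GenericCompleteInters
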