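import Pool.Agent.Y190.OP.Near

/-!
MP_c6ff8d_ag, Q1: hyperbolicity and subvarieties of general type for the closed subsets of the
complete intersections `w j ^ d j = H (a j 1) * ... * H (a j (d j))`, `j < c`, of linear degree in
`P^(c+n)`.

`CompInt n a` is the (cone over the) complete intersection; the last `n + 1` coordinates are the
coefficients of the polynomial `H`. `Cone F` is the cone over the projective variety `V = {F = 0}`.
`Brody F`: all entire curves in `V` are constant (equivalent to Kobayashi hyperbolicity).
`Picard F`: all holomorphic maps from the punctured disc to `V` extend to the disc.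
`AllGeneralType F`: all closed subvarieties of positive dimension of `V` are of general type.
`AlgHyperbolic n F`: all maps from curves of genus `g` to `V` have degree at most
`n * max (2 * g - 2) 0`. `BoundedOnCurves F`: the degrees of the maps from each curve are bounded.
-/

set_option autoImplicit false

namespace Pool.Agent.Results.MP_c6ff8d_ag.LinearDegreeIntersections

open Pool.Agent.W602.GT Pool.Agent.Y190.CI Pool.Agent.W603.CX Pool.Agent.Y190.PH
  Pool.Agent.Y190.OP

/-- Let `n * (c + 2) < c * δ` and `3 * (n + 1) < δ + 3 * c`, let `d j ≥ δ` for `j < c`, and let the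
complex numbers `a j i` be distinct (`Data`); for instance `c = n` and `δ = n + 3`. Let `V` be a
closed subset of the complete intersection `w j ^ d j = H (a j 1) * ... * H (a j (d j))`, `j < c`.

(1) If `n ≤ c + 1`, the following are equivalent: `V` is hyperbolic; all holomorphic maps from the
punctured disc to `V` extend; all subvarieties of `V` are of general type; `V` is algebraically
hyperbolic, with the constant `n`; the degrees of the maps from each curve to `V` are bounded; there
are no nonconstant morphisms from the multiplicative group to `V`; `V` contains no line.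

(2) If `n ≤ c`, all this is true.

(3) If `n ≤ c`, or `n = c + 1` and `V` contains no line, there is `ε > 0` such that all projective
varieties `{F' = 0}` are hyperbolic for which the forms `F' e` differ by at most `ε` from the
equations `F e` of `V` on the unit ball. For instance, all complete intersections near the above
ones are hyperbolic, among them smooth complete intersections of `n` hypersurfaces of degree `n + 3`
in `P^(2n)`. -/
theorem result {n c δ : ℕ} {d : Fin c → ℕ} {a : (j : Fin c) → Fin (d j) → ℂ}
    (h : Data n c δ d a) {ι : Type} {F : ι → MvPolynomial (Fin (c + n + 1)) ℂ}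
    (hF : ∀ e, IsForm (F e)) (hV : Cone F ⊆ CompInt n a) :
    (n ≤ c + 1 → [Brody F, Picard F, AllGeneralType F, AlgHyperbolic n F, BoundedOnCurves F,
      ∀ P, ¬ GmCurve F P, ¬ ContainsLine F].TFAE) ∧
    (n ≤ c → Brody F ∧ Picard F ∧ AllGeneralType F ∧ AlgHyperbolic n F) ∧
    ((n ≤ c ∨ n = c + 1 ∧ ¬ ContainsLine F) →
      ∃ ε : ℝ, 0 < ε ∧ ∀ F' : ι → MvPolynomial (Fin (c + n + 1)) ℂ, (∀ e, IsForm (F' e)) →
        (∀ e u, ‖u‖ ≤ 1 → ‖MvPolynomial.eval u (F' e) - MvPolynomial.eval u (F e)‖ ≤ ε) →
        Brody F') :=
  ⟨fun hnc => hyp_seven hnc h.num h.inj hF hV, fun hnc => hyp_low hnc h.num h.inj hF hV,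
    fun hnc => near_sub hnc h.num h.inj hF hV⟩

end Pool.Agent.Results.MP_c6ff8d_ag.LinearDegreeIntersections
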